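import Mathlib

/-! Formulas built from word equations, regular constraints and conditions on lengths. -/

namespace Pool.Agent.Work.MP_cb6225_lc

/-- the value of a word in variables (natural numbers) and letters under an assignment -/
def val {α : Type} (h : ℕ → List α) (U : List (ℕ ⊕ α)) : List α :=
  U.flatMap (Sum.elim h fun a => [a])

/-- quantifier-free formulas; `Λ` is the class of the allowed conditions on the vector of the
lengths of the variables -/
inductive Formula (α : Type) (Λ : Set (Set (ℕ → ℕ))) : Type
  | eqn (U V : List (ℕ ⊕ α))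
  | reg (x : ℕ) (R : Language α) (hR : R.IsRegular)
  | len (P : Set (ℕ → ℕ)) (hP : P ∈ Λ)
  | neg (f : Formula α Λ)
  | conj (f g : Formula α Λ)
  | disj (f g : Formula α Λ)

/-- the assignment `h` satisfies the formula -/
def Formula.Sat {α : Type} {Λ : Set (Set (ℕ → ℕ))} (h : ℕ → List α) : Formula α Λ → Prop
  | .eqn U V => val h U = val h V
  | .reg x R _ => h x ∈ R
  | .len P _ => (fun x => (h x).length) ∈ P
  | .neg f => ¬ f.Sat h
  | .conj f g => f.Sat h ∧ g.Sat h
  | .disj f g => f.Sat h ∨ g.Sat h

/-- `L` is the set of the values of one variable in the satisfying assignments of a formula -/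
def Expressible {α : Type} (Λ : Set (Set (ℕ → ℕ))) (L : Language α) : Prop :=
  ∃ (f : Formula α Λ) (x : ℕ), ∀ w, w ∈ L ↔ ∃ h, f.Sat h ∧ h x = w

end Pool.Agent.Work.MP_cb6225_lc
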