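import Pool.Agent.Work.MP_cb6225_lc.Defs

-- merged part: Pool.Agent.Work.MP_cb6225_lc.Rep
section
/-! Replacing the occurrences of a word by a congruent word of the same length. -/

namespace Pool.Agent.Work.MP_cb6225_lc

open List

variable {α : Type}

open Classical in
/-- replace the occurrences of `u` by `u'`, from left to right -/
noncomputable def rep (u u' : List α) : List α → List α
  | [] => []
  | c :: s => if u <+: c :: s ∧ u ≠ [] then u' ++ rep u u' (s.drop (u.length - 1))
      else c :: rep u u' s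
termination_by s => s.length
decreasing_by all_goals simp

theorem rep_nil (u u' : List α) : rep u u' [] = [] := by rw [rep]

theorem rep_pos {u : List α} (u' : List α) (hu : u ≠ []) (s : List α) :
    rep u u' (u ++ s) = u' ++ rep u u' s := by
  obtain ⟨c, t, rfl⟩ := exists_cons_of_ne_nil hu
  rw [cons_append, rep, if_pos ⟨by rw [← cons_append]; exact prefix_append _ _, hu⟩]
  simp

theorem rep_neg {u : List α} (u' : List α) {c : α} {s : List α} (h : ¬ u <+: c :: s) :
    rep u u' (c :: s) = c :: rep u u' s := by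
  rw [rep, if_neg fun k => h k.1]

theorem rep_ind {u : List α} (hu : u ≠ []) {P : List α → Prop} (h0 : P [])
    (h1 : ∀ s, P s → P (u ++ s)) (h2 : ∀ c s, ¬ u <+: c :: s → P s → P (c :: s)) (s : List α) :
    P s := by
  induction h : s.length using Nat.strong_induction_on generalizing s with
  | _ n ih =>
    rcases s with _ | ⟨c, s⟩
    · exact h0
    by_cases k : u <+: c :: s
    · obtain ⟨t, ht⟩ := k
      rw [← ht]
      refine h1 t (ih t.length ?_ t rfl)
      have := congrArg length ht
      have := length_pos_of_ne_nil hu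
      rw [length_append] at *
      omega
    · exact h2 c s k (ih s.length (by rw [← h]; simp) s rfl)

theorem rep_len {u u' : List α} (hu : u ≠ []) (h : u'.length = u.length) (s : List α) :
    (rep u u' s).length = s.length := by
  induction s using rep_ind hu with
  | h0 => rw [rep_nil]
  | h1 s ih => rw [rep_pos _ hu, length_append, length_append, ih, h]
  | h2 c s k ih => rw [rep_neg _ k, length_cons, length_cons, ih]

/-- a homomorphism from the free monoid -/
def Hom {M : Type} [Monoid M] (μ : List α → M) : Prop := ∀ u v, μ (u ++ v) = μ u * μ v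

theorem rep_mu {M : Type} [Monoid M] {μ : List α → M} (hμ : Hom μ) {u u' : List α} (hu : u ≠ [])
    (h : μ u' = μ u) (s : List α) : μ (rep u u' s) = μ s := by
  induction s using rep_ind hu with
  | h0 => rw [rep_nil]
  | h1 s ih => rw [rep_pos _ hu, hμ, hμ, ih, h]
  | h2 c s k ih => rw [rep_neg _ k, ← singleton_append, hμ, ih, ← hμ, singleton_append]

/-- an occurrence of `u` crosses the cut between `s` and `t` -/
def Cross (u s t : List α) : Prop := ∃ p q, p ≠ [] ∧ q ≠ [] ∧ u = p ++ q ∧ p <:+ s ∧ q <+: t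

theorem rep_append {u : List α} (u' : List α) (hu : u ≠ []) {s t : List α} (h : ¬ Cross u s t) :
    rep u u' (s ++ t) = rep u u' s ++ rep u u' t := by
  induction s using rep_ind hu with
  | h0 => rw [rep_nil, nil_append, nil_append]
  | h1 s ih =>
    rw [append_assoc, rep_pos _ hu, rep_pos _ hu, append_assoc, ih]
    rintro ⟨p, q, a, b, c, d, e⟩
    exact h ⟨p, q, a, b, c, d.trans (suffix_append _ _), e⟩
  | h2 c s k ih =>
    have k' : ¬ u <+: c :: (s ++ t) := by
      intro k'
      rw [← cons_append] at k'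
      rcases prefix_or_prefix_of_prefix k' (prefix_append _ _) with j | ⟨q, j⟩
      · exact k j
      · refine h ⟨c :: s, q, by simp, ?_, j.symm, suffix_rfl, ?_⟩
        · rintro rfl
          exact k (by rw [← j, append_nil])
        · rwa [← j, prefix_append_right_inj] at k'
    rw [cons_append, rep_neg _ k', rep_neg _ k, cons_append, ih]
    rintro ⟨p, q, a, b, c, d, e⟩
    exact h ⟨p, q, a, b, c, d.trans (suffix_cons _ _), e⟩

theorem rep_single {u : List α} (u' : List α) (hu : 2 ≤ u.length) (a : α) :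
    rep u u' [a] = [a] := by
  rw [rep_neg, rep_nil]
  intro h
  have := h.length_le
  simp at this
  omega

theorem rep_skip {u : List α} (u' : List α) (p t : List α)
    (h : ∀ s, s ≠ [] → s <:+ p → ¬ u <+: s ++ t) : rep u u' (p ++ t) = p ++ rep u u' t := by
  induction p with
  | nil => rfl
  | cons c p ih =>
    have k : ¬ u <+: c :: (p ++ t) := h (c :: p) (by simp) suffix_rfl
    rw [cons_append, rep_neg _ k, cons_append,
      ih fun s hs k => h s hs (k.trans (suffix_cons _ _))]

theorem rep_noocc {u : List α} (u' : List α) {s : List α} (h : ¬ u <:+: s) : rep u u' s = s := by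
  have := rep_skip (u := u) u' s [] fun t _ k j =>
    h ((append_nil t ▸ j).isInfix.trans k.isInfix)
  rwa [append_nil, rep_nil, append_nil] at this

theorem val_rep (h : ℕ → List α) (U : List (ℕ ⊕ α)) :
    ∃ cuts : List (List α × List α), cuts.length ≤ U.length ∧ ∀ u u' : List α, 2 ≤ u.length →
      (∀ k ∈ cuts, ¬ Cross u k.1 k.2) → val (fun x => rep u u' (h x)) U = rep u u' (val h U) := by
  induction U with
  | nil => exact ⟨[], le_rfl, fun u u' _ _ => (rep_nil u u').symm⟩
  | cons y U ih =>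
    obtain ⟨cuts, h1, h2⟩ := ih
    refine ⟨(Sum.elim h (fun a => [a]) y, val h U) :: cuts, by simpa using h1,
      fun u u' hu k => ?_⟩
    have hu0 : u ≠ [] := by rintro rfl; simp at hu
    have e := h2 u u' hu fun j hj => k j (mem_cons_of_mem _ hj)
    have e' := rep_append u' hu0 (k _ mem_cons_self)
    simp only [val, flatMap_cons] at e e' ⊢
    rw [e', e]
    rcases y with y | y
    · rfl
    · simp [rep_single u' hu]

theorem mismatch {s t : List α} (h : s ≠ t) (hl : s.length = t.length) :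
    ∃ p a b q q', a ≠ b ∧ s = p ++ ([a] ++ q) ∧ t = p ++ ([b] ++ q') := by
  induction s generalizing t with
  | nil => exact absurd (length_eq_zero_iff.1 hl.symm).symm h
  | cons a s ih =>
    rcases t with _ | ⟨b, t⟩
    · simp at hl
    by_cases e : a = b
    · subst e
      obtain ⟨p, c, d, q, q', k, rfl, rfl⟩ := ih (t := t) (fun k => h (by rw [k])) (by simpa using hl)
      exact ⟨a :: p, c, d, q, q', k, rfl, rfl⟩
    · exact ⟨[], a, b, s, t, e, rfl, rfl⟩

theorem rep_ne {s t : List α} (h : s ≠ t) :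
    ∃ cuts : List (List α × List α), cuts.length ≤ 4 ∧ ∀ u u' : List α, 2 ≤ u.length →
      u'.length = u.length → (∀ k ∈ cuts, ¬ Cross u k.1 k.2) → rep u u' s ≠ rep u u' t := by
  by_cases hl : s.length = t.length
  · obtain ⟨p, a, b, q, q', k, rfl, rfl⟩ := mismatch h hl
    refine ⟨[(p, [a] ++ q), ([a], q), (p, [b] ++ q'), ([b], q')], le_rfl, fun u u' hu _ j => ?_⟩
    have hu0 : u ≠ [] := by rintro rfl; simp at hu
    rw [rep_append u' hu0 (j (p, [a] ++ q) (by simp)), rep_append u' hu0 (j ([a], q) (by simp)),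
      rep_append u' hu0 (j (p, [b] ++ q') (by simp)), rep_append u' hu0 (j ([b], q') (by simp)),
      rep_single u' hu, rep_single u' hu]
    simp [k]
  · refine ⟨[], by simp, fun u u' hu e _ j => hl ?_⟩
    have hu0 : u ≠ [] := by rintro rfl; simp at hu
    rw [← rep_len hu0 e s, j, rep_len hu0 e]

theorem swap {Λ : Set (Set (ℕ → ℕ))} (f : Formula α Λ) :
    ∃ (M : Type) (_ : Monoid M) (_ : Finite M) (μ : List α → M) (C : ℕ), Hom μ ∧
      ∀ h : ℕ → List α, ∃ cuts : List (List α × List α), cuts.length ≤ C ∧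
        ∀ u u' : List α, 2 ≤ u.length → u'.length = u.length → μ u' = μ u →
          (∀ k ∈ cuts, ¬ Cross u k.1 k.2) → (f.Sat (fun x => rep u u' (h x)) ↔ f.Sat h) := by
  have two : ∀ (f g : Formula α Λ) (F : Prop → Prop → Prop),
      (∃ (M : Type) (_ : Monoid M) (_ : Finite M) (μ : List α → M) (C : ℕ), Hom μ ∧
      ∀ h : ℕ → List α, ∃ cuts : List (List α × List α), cuts.length ≤ C ∧
        ∀ u u' : List α, 2 ≤ u.length → u'.length = u.length → μ u' = μ u →
          (∀ k ∈ cuts, ¬ Cross u k.1 k.2) → (f.Sat (fun x => rep u u' (h x)) ↔ f.Sat h)) →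
      (∃ (M : Type) (_ : Monoid M) (_ : Finite M) (μ : List α → M) (C : ℕ), Hom μ ∧
      ∀ h : ℕ → List α, ∃ cuts : List (List α × List α), cuts.length ≤ C ∧
        ∀ u u' : List α, 2 ≤ u.length → u'.length = u.length → μ u' = μ u →
          (∀ k ∈ cuts, ¬ Cross u k.1 k.2) → (g.Sat (fun x => rep u u' (h x)) ↔ g.Sat h)) →
      (∃ (M : Type) (_ : Monoid M) (_ : Finite M) (μ : List α → M) (C : ℕ), Hom μ ∧
      ∀ h : ℕ → List α, ∃ cuts : List (List α × List α), cuts.length ≤ C ∧
        ∀ u u' : List α, 2 ≤ u.length → u'.length = u.length → μ u' = μ u →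
          (∀ k ∈ cuts, ¬ Cross u k.1 k.2) →
            (F (f.Sat (fun x => rep u u' (h x))) (g.Sat (fun x => rep u u' (h x))) ↔
              F (f.Sat h) (g.Sat h))) := by
    rintro f g F ⟨M, _, _, μ, C, a1, a2⟩ ⟨M', _, _, μ', C', b1, b2⟩
    refine ⟨M × M', inferInstance, inferInstance, fun w => (μ w, μ' w), C + C',
      fun u v => Prod.ext (a1 u v) (b1 u v), fun h => ?_⟩
    obtain ⟨c, c1, c2⟩ := a2 h
    obtain ⟨d, d1, d2⟩ := b2 h
    refine ⟨c ++ d, by rw [length_append]; omega, fun u u' hu e k j => ?_⟩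
    rw [c2 u u' hu e (congrArg Prod.fst k) fun i hi => j i (mem_append_left _ hi),
      d2 u u' hu e (congrArg Prod.snd k) fun i hi => j i (mem_append_right _ hi)]
  induction f with
  | eqn U V =>
    refine ⟨Unit, inferInstance, inferInstance, fun _ => (), U.length + V.length + 4,
      fun _ _ => rfl, fun h => ?_⟩
    obtain ⟨c, c1, c2⟩ := val_rep h U
    obtain ⟨d, d1, d2⟩ := val_rep h V
    by_cases k : val h U = val h V
    · refine ⟨c ++ d, by rw [length_append]; omega, fun u u' hu _ _ j => ?_⟩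
      simp only [Formula.Sat]
      rw [c2 u u' hu fun i hi => j i (mem_append_left _ hi),
        d2 u u' hu fun i hi => j i (mem_append_right _ hi), k]
      simp
    · obtain ⟨e, e1, e2⟩ := rep_ne k
      refine ⟨c ++ d ++ e, by rw [length_append, length_append]; omega, fun u u' hu l _ j => ?_⟩
      simp only [Formula.Sat]
      rw [c2 u u' hu fun i hi => j i (by simp [hi]), d2 u u' hu fun i hi => j i (by simp [hi])]
      exact iff_of_false (e2 u u' hu l fun i hi => j i (by simp [hi])) k
  | reg x R hR =>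
    obtain ⟨σ, _, D, rfl⟩ := hR
    have : Finite (Function.End σ) := inferInstanceAs (Finite (σ → σ))
    have hμ : Hom fun w : List α =>
        (MulOpposite.op (fun s => D.evalFrom s w) : (Function.End σ)ᵐᵒᵖ) := fun u v => by
      rw [← MulOpposite.op_mul]
      exact congrArg MulOpposite.op (funext fun s => D.evalFrom_of_append s u v)
    refine ⟨(Function.End σ)ᵐᵒᵖ, inferInstance, Finite.of_equiv _ MulOpposite.opEquiv, _, 0, hμ,
      fun h => ⟨[], le_rfl, fun u u' hu _ k _ => ?_⟩⟩
    have hu0 : u ≠ [] := by rintro rfl; simp at hu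
    have := congrFun (MulOpposite.op_injective (rep_mu hμ hu0 k (h x))) D.start
    simp only [Formula.Sat, DFA.mem_accepts, DFA.eval]
    rw [this]
  | len P hP =>
    refine ⟨Unit, inferInstance, inferInstance, fun _ => (), 0, fun _ _ => rfl,
      fun h => ⟨[], le_rfl, fun u u' hu e _ _ => ?_⟩⟩
    have hu0 : u ≠ [] := by rintro rfl; simp at hu
    simp only [Formula.Sat, rep_len hu0 e]
  | neg f ih => exact two f f (fun a _ => ¬ a) ih ih
  | conj f g ih ih' => exact two f g And ih ih'
  | disj f g ih ih' => exact two f g Or ih ih'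

/-- replacing a word that crosses none of boundedly many cuts keeps membership in `L` -/
def SW {M : Type} (L : Language α) (μ : List α → M) (C : ℕ) : Prop :=
  ∀ w ∈ L, ∃ cuts : List (List α × List α), cuts.length ≤ C ∧
    ∀ u u' : List α, 2 ≤ u.length → u'.length = u.length → μ u' = μ u →
      (∀ k ∈ cuts, ¬ Cross u k.1 k.2) → rep u u' w ∈ L

theorem sw_of_expr {Λ : Set (Set (ℕ → ℕ))} {L : Language α} (h : Expressible Λ L) :
    ∃ (M : Type) (_ : Monoid M) (_ : Finite M) (μ : List α → M) (C : ℕ), Hom μ ∧ SW L μ C := by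
  obtain ⟨f, x, hf⟩ := h
  obtain ⟨M, _, _, μ, C, a1, a2⟩ := swap f
  refine ⟨M, inferInstance, inferInstance, μ, C, a1, fun w hw => ?_⟩
  obtain ⟨h, h1, rfl⟩ := (hf w).1 hw
  obtain ⟨c, c1, c2⟩ := a2 h
  exact ⟨c, c1, fun u u' a b d e => (hf _).2 ⟨_, (c2 u u' a b d e).2 h1, rfl⟩⟩

end Pool.Agent.Work.MP_cb6225_lc
end

-- merged part: Pool.Agent.Work.MP_cb6225_lc.Mark
section
/-! Words marked by long runs of one letter. -/

namespace Pool.Agent.Work.MP_cb6225_lc

open List

variable {α : Type}

/-- the concatenation of `v i, …, v (i + n - 1)` -/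
def seg (v : ℕ → List α) : ℕ → ℕ → List α
  | _, 0 => []
  | i, n + 1 => v i ++ seg v (i + 1) n

theorem seg_add (v : ℕ → List α) (i m n : ℕ) : seg v i (m + n) = seg v i m ++ seg v (i + m) n := by
  induction m generalizing i with
  | zero => simp [seg]
  | succ m ih =>
    rw [Nat.add_right_comm, seg, seg, ih, append_assoc, Nat.add_right_comm i 1 m, Nat.add_assoc i]

theorem seg_succ (v : ℕ → List α) (i m : ℕ) : seg v i (m + 1) = seg v i m ++ v (i + m) := by
  rw [seg_add]; simp [seg]

theorem seg_split (v : ℕ → List α) {t c : ℕ} (h : t < c) :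
    seg v 0 c = seg v 0 t ++ v t ++ seg v (t + 1) (c - t - 1) := by
  obtain ⟨d, rfl⟩ : ∃ d, c = t + (d + 1) := ⟨c - t - 1, by omega⟩
  rw [seg_add, seg, Nat.zero_add, append_assoc, show t + (d + 1) - t - 1 = d by omega]

theorem seg_congr {v w : ℕ → List α} {i n : ℕ} (h : ∀ k, k < i + n → v k = w k) :
    seg v i n = seg w i n := by
  induction n generalizing i with
  | zero => rfl
  | succ n ih => rw [seg, seg, h i (by omega), ih fun k hk => h k (by omega)]

theorem seg_tele (A D : ℕ → List α) (i j : ℕ) :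
    A i ++ seg (fun k => D k ++ A (k + 1)) i j = seg (fun k => A k ++ D k) i j ++ A (i + j) := by
  induction j generalizing i with
  | zero => simp [seg]
  | succ j ih =>
    rw [seg, seg, append_assoc (D i), ih, Nat.add_right_comm i 1 j, Nat.add_assoc i]
    simp only [append_assoc]

variable {a : α} {N : ℕ}

/-- no run of `N` letters `a` -/
def NoRun (a : α) (N : ℕ) (s : List α) : Prop := ¬ replicate N a <:+: s

theorem NoRun.mono {s t : List α} (h : NoRun a N t) (k : s <:+: t) : NoRun a N s :=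
  fun j => h (j.trans k)

theorem noRun_short {s : List α} (h : s.length < N) : NoRun a N s := fun k => by
  have := k.length_le
  rw [length_replicate] at this
  omega

theorem infix_glue {l A B : List α} {b : α} (hb : b ∉ l) (h : l <:+: A ++ b :: B) :
    l <:+: A ∨ l <:+: B := by
  have k : ∀ l' : List α, b ∉ l' → l' <+: b :: B → l' = [] := fun l' j i => by
    rcases prefix_cons_iff.1 i with i | ⟨t, rfl, -⟩
    · exact i
    · exact absurd mem_cons_self j
  rcases infix_append_iff.1 h with h | h | ⟨l₁, l₂, rfl, h1, h2⟩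
  · exact Or.inl h
  · rcases infix_cons_iff.1 h with h | h
    · rw [k l hb h]; exact Or.inl nil_infix
    · exact Or.inr h
  · rw [k l₂ (fun j => hb (mem_append_right _ j)) h2, append_nil]
    exact Or.inl h1.isInfix

theorem NoRun.glue {A B : List α} {b : α} (hb : b ≠ a) (h : NoRun a N A) (h' : NoRun a N B) :
    NoRun a N (A ++ b :: B) := fun k =>
  (infix_glue (fun j => hb (eq_of_mem_replicate j)) k).elim h h'

/-- a run of exactly `n` letters `a` between two other letters -/
def Hd (a : α) (n : ℕ) (s : List α) : Prop :=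
  ∃ b c, b ≠ a ∧ c ≠ a ∧ b :: (replicate n a ++ [c]) <:+: s

theorem Hd.mono {n : ℕ} {s t : List α} (h : Hd a n s) (k : s <:+: t) : Hd a n t := by
  obtain ⟨b, c, h1, h2, h3⟩ := h
  exact ⟨b, c, h1, h2, h3.trans k⟩

theorem NoRun.noHd {n : ℕ} {s : List α} (h : NoRun a N s) (hn : N ≤ n) : ¬ Hd a n s := by
  rintro ⟨b, c, -, -, k⟩
  obtain ⟨m, rfl⟩ := Nat.exists_eq_add_of_le hn
  refine h (IsInfix.trans ⟨[b], replicate m a ++ [c], ?_⟩ k)
  rw [replicate_add]
  simp only [append_assoc, cons_append, nil_append]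

theorem pre_glue {R s B : List α} {b c : α} (hb : b ∉ R) (h : R ++ [c] <+: s ++ b :: B) :
    R ++ [c] <+: s ++ [b] := by
  rcases prefix_or_prefix_of_prefix h (⟨B, by simp⟩ : s ++ [b] <+: s ++ b :: B) with k | k
  · exact k
  · rcases prefix_concat_iff.1 k with k | k
    · rw [k]
    · exact absurd (k.subset (by simp)) hb

theorem Hd.glue {n : ℕ} {A B : List α} {b : α} (hb : b ≠ a) (h : Hd a n (A ++ b :: B)) :
    Hd a n (A ++ [b]) ∨ Hd a n (b :: B) := by
  obtain ⟨d, c, h1, h2, p, q, h3⟩ := h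
  rw [append_assoc] at h3
  rcases append_eq_append_iff.1 h3 with ⟨s, rfl, h⟩ | ⟨s, rfl, h⟩
  · rcases s with _ | ⟨e, s⟩
    · exact Or.inr ⟨d, c, h1, h2, [], q, h⟩
    · rw [cons_append, cons_append, cons.injEq] at h
      obtain ⟨rfl, h⟩ := h
      obtain ⟨r, hr⟩ := pre_glue (fun j => hb (eq_of_mem_replicate j)) ⟨q, h⟩
      refine Or.inl ⟨d, c, h1, h2, p, r, ?_⟩
      rw [append_assoc, append_assoc, cons_append, cons_append, hr]
  · exact Or.inr ⟨d, c, h1, h2, s, q, by rw [h, append_assoc]⟩

theorem run_eq {m n : ℕ} {c d : α} {s t : List α} (hc : c ≠ a) (hd : d ≠ a)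
    (h : replicate m a ++ c :: s <+: replicate n a ++ d :: t) : m = n := by
  induction m generalizing n with
  | zero =>
    rcases n with _ | n
    · rfl
    · rw [replicate_succ] at h
      exact absurd (cons_prefix_cons.1 h).1 hc
  | succ m ih =>
    rcases n with _ | n
    · rw [replicate_succ] at h
      exact absurd (cons_prefix_cons.1 h).1.symm hd
    · rw [replicate_succ, replicate_succ, cons_append, cons_append] at h
      rw [ih (cons_prefix_cons.1 h).2]

theorem noHd_run {m n : ℕ} {b c : α} (hc : c ≠ a) (h : m ≠ n) :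
    ¬ Hd a m (b :: (replicate n a ++ [c])) := by
  rintro ⟨d, e, h1, h2, k⟩
  rcases infix_cons_iff.1 k with k | k
  · exact h (run_eq h2 hc (cons_prefix_cons.1 k).2)
  · rcases infix_concat_iff.1 k with k | k
    · rcases suffix_concat_iff.1 k with k | ⟨t, k, j⟩
      · simp at k
      · rw [← cons_append] at k
        rw [← (append_inj' k rfl).1] at j
        exact h1 (eq_of_mem_replicate (j.subset mem_cons_self))
    · exact h1 (eq_of_mem_replicate (k.subset mem_cons_self))

/-- starts and ends with a letter other than `a` and has no long run -/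
def Good (a : α) (N : ℕ) (Y : List α) : Prop :=
  (∃ c Y', c ≠ a ∧ Y = c :: Y') ∧ (∃ Y' c, c ≠ a ∧ Y = Y' ++ [c]) ∧ NoRun a N Y

theorem suffix_run {n : ℕ} {b : α} {s Y : List α} (hb : b ≠ a)
    (h : b :: s <:+ replicate n a ++ Y) : b :: s <:+ Y := by
  induction n with
  | zero => simpa using h
  | succ n ih =>
    rw [replicate_succ, cons_append] at h
    rcases suffix_cons_iff.1 h with h | h
    · exact absurd (cons.inj h).1 hb
    · exact ih h

theorem cross_aux {m n : ℕ} {b c : α} {Y Z p q d r : List α} (hc : c ≠ a) (hn : N ≤ n)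
    (hY : Good a N Y) (hZ : Good a N Z) (hp : p ≠ []) (hq : q ≠ [])
    (h1 : b :: (replicate m a ++ Y) = d ++ p ++ q) (h2 : c :: (replicate n a ++ Z) = p ++ r)
    (h : q <+: r ∨ r <+: q) : m = n := by
  obtain ⟨⟨y, Y', hy, e1⟩, ⟨Y'', y', hy', e2⟩, hY⟩ := hY
  obtain ⟨⟨z, Z', hz, rfl⟩, -, -⟩ := hZ
  obtain ⟨c', p, rfl⟩ := exists_cons_of_ne_nil hp
  rw [cons_append, cons.injEq] at h2
  obtain ⟨rfl, h2⟩ := h2
  have h' : p ++ q <+: replicate n a ++ z :: Z' ∨ replicate n a ++ z :: Z' <+: p ++ q := by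
    rw [h2, prefix_append_right_inj, prefix_append_right_inj]; exact h
  rcases d with _ | ⟨e, d⟩
  · rw [nil_append, cons_append, cons.injEq] at h1
    rw [← h1.2, e1] at h'
    exact h'.elim (run_eq hy hz) fun k => (run_eq hz hy k).symm
  · exfalso
    rw [cons_append, cons_append, cons.injEq] at h1
    have k : c :: (p ++ q) <:+ Y := suffix_run hc ⟨d, by rw [h1.2]; simp⟩
    have k' : p ++ q <:+ Y := (suffix_cons _ _).trans k
    have h'' : p ++ q <+: replicate n a ∨ replicate n a <+: p ++ q :=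
      h'.elim (fun j => prefix_or_prefix_of_prefix j (prefix_append _ _))
        fun j => Or.inr ((prefix_append _ _).trans j)
    rcases h'' with j | j
    · rw [e2] at k'
      rcases suffix_concat_iff.1 k' with i | ⟨t, i, -⟩
      · exact hq (append_eq_nil_iff.1 i).2
      · exact hy' (eq_of_mem_replicate (j.subset (by rw [i]; simp)))
    · obtain ⟨l, rfl⟩ := Nat.exists_eq_add_of_le hn
      rw [replicate_add] at j
      exact hY (((prefix_append _ _).trans j).isInfix.trans k'.isInfix)

theorem cross_eq {m n : ℕ} {b c : α} {Y Z s t : List α} (hb : b ≠ a) (hc : c ≠ a) (hm : N ≤ m)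
    (hn : N ≤ n) (hY : Good a N Y) (hZ : Good a N Z)
    (h1 : Cross (b :: (replicate m a ++ Y)) s t) (h2 : Cross (c :: (replicate n a ++ Z)) s t) :
    m = n := by
  obtain ⟨p, q, a1, a2, a3, a4, a5⟩ := h1
  obtain ⟨p', q', b1, b2, b3, b4, b5⟩ := h2
  have k := prefix_or_prefix_of_prefix a5 b5
  rcases suffix_or_suffix_of_suffix a4 b4 with ⟨d, rfl⟩ | ⟨d, rfl⟩
  · exact (cross_aux hb hm hZ hY a1 b2 b3 a3 k.symm).symm
  · exact cross_aux hc hn hY hZ b1 a2 a3 b3 k

theorem ends_noHd {m : ℕ} (hm : N ≤ m) (n : ℕ → ℕ) (Y : ℕ → List α) (j i : ℕ) (P : List α)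
    (b : α) (hb : b ≠ a) (h : ¬ Hd a m (P ++ [b]))
    (k : ∀ k, i ≤ k → k < i + j → Good a N (Y k) ∧ n k ≠ m) :
    ∃ P' b', b' ≠ a ∧ P ++ [b] ++ seg (fun k => replicate (n k) a ++ Y k) i j = P' ++ [b'] ∧
      ¬ Hd a m (P' ++ [b']) := by
  induction j generalizing i P b with
  | zero => exact ⟨P, b, hb, by simp [seg], h⟩
  | succ j ih =>
    obtain ⟨⟨⟨y, Y', hy, e1⟩, ⟨Y'', y', hy', e2⟩, hY⟩, hn⟩ := k i le_rfl (by omega)
    obtain ⟨P', b', a1, a2, a3⟩ := ih (i + 1) (P ++ [b] ++ replicate (n i) a ++ Y'') y' hy'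
      (fun j => by
        rw [append_assoc _ Y'', ← e2, e1, append_assoc, append_assoc, singleton_append] at j
        rcases j.glue hb with j | j
        · exact h j
        · rw [← cons_append] at j
          rcases j.glue hy with j | j
          · exact noHd_run hy hn.symm j
          · exact hY.noHd hm (e1 ▸ j))
      fun l h1 h2 => k l (by omega) (by omega)
    refine ⟨P', b', a1, ?_, a3⟩
    rw [← a2, seg, e2]
    simp only [append_assoc]

theorem swap_marked {M : Type} [Monoid M] {μ : List α → M} (hμ : Hom μ) {L : Language α} {C : ℕ}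
    (h : SW L μ C) (X X' : List α) (b : α) (hb : b ≠ a) (n : ℕ → ℕ) (Y E' : ℕ → List α)
    (hX : NoRun a N X) (hX' : NoRun a N X') (hY : ∀ k < C + 1, Good a N (Y k))
    (hn : ∀ k < C + 1, N ≤ n k) (inj : ∀ k < C + 1, ∀ l < C + 1, n k = n l → k = l)
    (hE : ∀ k < C + 1, (E' k).length = (replicate (n k) a ++ Y k).length ∧
      μ (E' k) = μ (replicate (n k) a ++ Y k))
    (hw : X ++ [b] ++ seg (fun k => replicate (n k) a ++ Y k) 0 (C + 1) ++ X' ∈ L) :
    ∃ t < C + 1, X ++ [b] ++ seg (fun k => replicate (n k) a ++ Y k) 0 t ++ E' t ++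
      seg (fun k => replicate (n k) a ++ Y k) (t + 1) (C + 1 - t - 1) ++ X' ∈ L := by
  classical
  obtain ⟨cuts, c1, c2⟩ := h _ hw
  have e : ∀ t, ∃ P' b', t < C + 1 → b' ≠ a ∧
      X ++ [b] ++ seg (fun k => replicate (n k) a ++ Y k) 0 t = P' ++ [b'] ∧
      ¬ Hd a (n t) (P' ++ [b']) := fun t => by
    by_cases ht : t < C + 1
    · obtain ⟨P', b', k⟩ := ends_noHd (hn t ht) n Y t 0 X b hb
        ((hX.glue hb (fun j => hX ((infix_nil.1 j).symm ▸ nil_infix))).noHd (hn t ht))
        fun k _ k2 => ⟨hY k (by omega), fun j => by have := inj k (by omega) t ht j; omega⟩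
      exact ⟨P', b', fun _ => k⟩
    · exact ⟨[], b, fun j => absurd j ht⟩
  choose P β e using e
  have : ∃ t < C + 1, ∀ k ∈ cuts, ¬ Cross (β t :: (replicate (n t) a ++ Y t)) k.1 k.2 := by
    by_contra j
    push Not at j
    choose! g g1 g2 using j
    obtain ⟨s, hs, t, ht, k1, k2⟩ := Finset.exists_ne_map_eq_of_card_lt_of_maps_to
      (s := Finset.range (C + 1)) (t := cuts.toFinset) (f := g)
      (by rw [Finset.card_range]; exact Nat.lt_succ_of_le ((toFinset_card_le _).trans c1))
      fun t ht => by simpa using g1 t (by simpa using ht)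
    rw [Finset.mem_range] at hs ht
    exact k1 (inj s hs t ht (cross_eq (e s hs).1 (e t ht).1 (hn s hs) (hn t ht) (hY s hs) (hY t ht)
      (g2 s hs) (k2 ▸ g2 t ht)))
  obtain ⟨t, ht, k⟩ := this
  obtain ⟨e1, e2, e3⟩ := e t ht
  obtain ⟨⟨y, Y', hy, f1⟩, ⟨Y'', y', hy', f2⟩, f3⟩ := hY t ht
  have hd : β t :: (replicate (n t) a ++ [y]) <+: β t :: (replicate (n t) a ++ Y t) :=
    ⟨Y', by rw [f1]; simp⟩
  have k' := c2 _ (β t :: E' t) (by rw [f1]; simp; omega) (by simp [(hE t ht).1])
    (by rw [← singleton_append, hμ, (hE t ht).2, ← hμ, singleton_append]) k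
  refine ⟨t, ht, ?_⟩
  obtain ⟨P', b', g1, g2, g3⟩ := ends_noHd (hn t ht) n Y (C + 1 - t - 1) (t + 1) [] y' hy'
    (fun j => by
      obtain ⟨_, _, -, -, j⟩ := j
      have := j.length_le
      simp at this)
    fun k k1 k2 => ⟨hY k (by omega), fun j => by have := inj k (by omega) t ht j; omega⟩
  rw [seg_split _ ht, ← append_assoc, ← append_assoc, e2, append_assoc (P t), append_assoc (P t),
    append_assoc (P t), rep_skip, singleton_append, append_assoc, rep_pos _ (by simp),
    rep_noocc] at k'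
  · rw [e2]
    simpa only [append_assoc, cons_append, nil_append] using k'
  · intro j
    have j' : Hd a (n t) (P' ++ b' :: X') := by
      refine ⟨_, _, e1, hy, (hd.isInfix.trans j).trans ⟨[y'], [], ?_⟩⟩
      rw [← singleton_append (l := X'), ← append_assoc P', ← g2]
      simp
    rcases j'.glue g1 with j | j
    · exact g3 j
    · exact (NoRun.glue (A := []) g1 (fun j => hX ((infix_nil.1 j).symm ▸ nil_infix)) hX').noHd
        (hn t ht) j
  · intro s hs j1 j2
    obtain ⟨d, s, rfl⟩ := exists_cons_of_ne_nil hs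
    have j3 := hd.trans j2
    simp only [append_assoc, cons_append, nil_append] at j3
    obtain ⟨rfl, j4⟩ := cons_prefix_cons.1 j3
    obtain ⟨r, hr⟩ := pre_glue (fun j => e1 (eq_of_mem_replicate j)) j4
    obtain ⟨l, hl⟩ := j1
    refine e3 ⟨_, _, e1, hy, l, r, ?_⟩
    rw [append_assoc, cons_append, hr, ← hl]
    simp

end Pool.Agent.Work.MP_cb6225_lc
end

-- merged part: Pool.Agent.Work.MP_cb6225_lc.Move
section
/-! With a neutral word, one of boundedly many congruent replacements keeps membership. -/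

namespace Pool.Agent.Work.MP_cb6225_lc

open List

variable {α : Type} {L : Language α}

/-- the syntactic congruence -/
def Syn (L : Language α) (u v : List α) : Prop := ∀ x y, x ++ u ++ y ∈ L ↔ x ++ v ++ y ∈ L

theorem Syn.refl (u : List α) : Syn L u u := fun _ _ => Iff.rfl

theorem Syn.symm {u v : List α} (h : Syn L u v) : Syn L v u := fun x y => (h x y).symm

theorem Syn.trans {u v w : List α} (h : Syn L u v) (k : Syn L v w) : Syn L u w :=
  fun x y => (h x y).trans (k x y)

theorem Syn.app {u v u' v' : List α} (h : Syn L u v) (k : Syn L u' v') :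
    Syn L (u ++ u') (v ++ v') := fun x y => by
  have h1 := h x (u' ++ y)
  have h2 := k (x ++ v) y
  simp only [append_assoc] at h1 h2 ⊢
  exact h1.trans h2

theorem Syn.mem {u v : List α} (h : Syn L u v) (k : u ∈ L) : v ∈ L := by
  simpa using (h [] []).1 (by simpa using k)

theorem syn_seg {v w : ℕ → List α} (h : ∀ k, Syn L (v k) (w k)) (i n : ℕ) :
    Syn L (seg v i n) (seg w i n) := by
  induction n generalizing i with
  | zero => exact Syn.refl _
  | succ n ih => exact (h i).app (ih _)

/-- the power of a word -/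
def pw (z : List α) : ℕ → List α
  | 0 => []
  | n + 1 => z ++ pw z n

theorem pw_len (z : List α) (n : ℕ) : (pw z n).length = z.length * n := by
  induction n with
  | zero => rfl
  | succ n ih => rw [pw, length_append, ih]; ring

theorem pw_succ' (z : List α) (n : ℕ) : pw z (n + 1) = pw z n ++ z := by
  induction n with
  | zero => simp [pw]
  | succ n ih => rw [pw, ih, ← append_assoc, ← pw, ih]

theorem syn_pw {z : List α} (h : Syn L z []) (n : ℕ) : Syn L (pw z n) [] := by
  induction n with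
  | zero => exact Syn.refl _
  | succ n ih => exact h.app ih

theorem mu_pw {M : Type} [Monoid M] {μ : List α → M} (hμ : Hom μ) (z : List α) (n : ℕ) :
    μ (pw z (n + 1)) = μ z ^ (n + 1) := by
  induction n with
  | zero => simp [pw]
  | succ n ih => rw [pw, hμ, ih, ← pow_succ']

theorem syn_nest {a : α} {i : ℕ} {y : List α} (h : Syn L (replicate i a ++ y) []) (n : ℕ) :
    Syn L (replicate (i * n) a ++ pw y n) [] := by
  induction n with
  | zero => exact Syn.refl _
  | succ n ih =>
    have := ((Syn.refl (replicate i a)).app ih).app (Syn.refl y)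
    rw [append_nil, ← append_assoc, ← replicate_add, append_assoc, ← pw_succ'] at this
    rw [Nat.mul_succ, Nat.add_comm (i * n)]
    exact this.trans h

theorem noRun_pw {a : α} {N : ℕ} {y : List α} (hy : y = [] ∨ ∃ b y', b ≠ a ∧ y = b :: y')
    (t : List α) (n : ℕ) (p : List α) (hp : p.length ≤ y.length) (h : y.length + t.length < N) :
    NoRun a N (p ++ (pw y n ++ t)) := by
  induction n generalizing p with
  | zero => exact noRun_short (by simp [pw]; omega)
  | succ n ih =>
    rcases hy with rfl | ⟨b, y', hb, rfl⟩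
    · exact ih p hp
    · rw [pw, append_assoc, cons_append]
      exact (noRun_short (by omega)).glue hb (ih y' (by simp))

theorem first_ne {a : α} (l : List α) :
    ∃ s y, l = replicate s a ++ y ∧ (y = [] ∨ ∃ b y', b ≠ a ∧ y = b :: y') := by
  induction l with
  | nil => exact ⟨0, [], rfl, Or.inl rfl⟩
  | cons c l ih =>
    by_cases h : c = a
    · obtain ⟨s, y, rfl, k⟩ := ih
      exact ⟨s + 1, y, by rw [h, replicate_succ, cons_append], k⟩
    · exact ⟨0, c :: l, rfl, Or.inr ⟨c, l, h, rfl⟩⟩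

theorem last_ne {a : α} {l : List α} (h : ∃ b ∈ l, b ≠ a) :
    ∃ l' b e, b ≠ a ∧ l = l' ++ [b] ++ replicate e a := by
  obtain ⟨s, y, e, k⟩ := first_ne (a := a) l.reverse
  rw [reverse_eq_iff] at e
  rcases k with rfl | ⟨b, y', hb, rfl⟩
  · obtain ⟨b, h1, h2⟩ := h
    rw [e] at h1
    simp at h1
    exact absurd h1.2 h2
  · exact ⟨y'.reverse, b, s, hb, by rw [e]; simp⟩

theorem good_tail {a b : α} {N : ℕ} {T : List α} (hb : b ≠ a) (h : NoRun a N (T ++ [b])) :
    ∃ s Y, s < N ∧ T ++ [b] = replicate s a ++ Y ∧ Good a N Y := by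
  obtain ⟨s, Y, e, k⟩ := first_ne (a := a) (T ++ [b])
  have hs : Y <:+ T ++ [b] := ⟨_, e.symm⟩
  rcases k with rfl | k
  · exact absurd (eq_of_mem_replicate (n := s) (by rw [← append_nil (replicate s a), ← e]; simp)) hb
  refine ⟨s, Y, ?_, e, k, ?_, h.mono hs.isInfix⟩
  · by_contra j
    obtain ⟨m, rfl⟩ := Nat.exists_eq_add_of_le (not_lt.1 j)
    refine h ⟨[], replicate m a ++ Y, ?_⟩
    rw [e, replicate_add, nil_append, append_assoc]
  · rcases suffix_concat_iff.1 hs with rfl | ⟨t, j, -⟩
    · obtain ⟨_, _, -, j⟩ := k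
      simp at j
    · exact ⟨t, b, hb, j⟩

theorem pow_cycle {M : Type} [Monoid M] [Finite M] (x : M) :
    ∃ i d, 0 < d ∧ x ^ (i + d) = x ^ i := by
  obtain ⟨i, j, h1, h2⟩ := Finite.exists_ne_map_eq_of_infinite fun n : ℕ => x ^ n
  rcases lt_or_gt_of_ne h1 with h | h
  · exact ⟨i, j - i, by omega, by rw [Nat.add_sub_cancel' h.le]; exact h2.symm⟩
  · exact ⟨j, i - j, by omega, by rw [Nat.add_sub_cancel' h.le]; exact h2⟩

theorem pow_idem {M : Type} [Monoid M] [Finite M] (x : M) :
    ∃ p, 0 < p ∧ ∀ j, x ^ (p * (j + 1)) = x ^ p := by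
  obtain ⟨i, d, hd, h⟩ := pow_cycle x
  have k : ∀ m, x ^ (i + d * m) = x ^ i := fun m => by
    induction m with
    | zero => simp
    | succ m ih => rw [Nat.mul_succ, ← Nat.add_assoc, Nat.add_right_comm, pow_add, h, ← pow_add, ih]
  refine ⟨d * (i + 1), by positivity, fun j => ?_⟩
  obtain ⟨r, hr⟩ := Nat.exists_eq_add_of_le (show i ≤ d * (i + 1) by nlinarith)
  have : d * (i + 1) * (j + 1) = i + d * ((i + 1) * j) + r := by rw [Nat.mul_succ _ j, hr]; nlinarith
  rw [this, pow_add, k, ← pow_add, ← hr]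

theorem pad_len {D m n : ℕ} (h : m ≡ n [MOD D]) :
    ∃ j j', m + D * (j + 1) = n + D * (j' + 1) := by
  rcases le_total m n with k | k
  · obtain ⟨d, hd⟩ := (Nat.modEq_iff_dvd' k).1 h
    exact ⟨d, 0, by rw [Nat.mul_succ, ← hd]; omega⟩
  · obtain ⟨d, hd⟩ := (Nat.modEq_iff_dvd' k).1 h.symm
    exact ⟨0, d, by rw [Nat.mul_succ D d, ← hd]; omega⟩

theorem move_alt {M : Type} [Monoid M] {μ : List α → M} (hμ : Hom μ) {C : ℕ} (h : SW L μ C)
    {a : α} {i : ℕ} (hi : 0 < i) {y₀ : List α} (hy : y₀ = [] ∨ ∃ b y', b ≠ a ∧ y₀ = b :: y')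
    (hz : Syn L (replicate i a ++ y₀) []) {p : ℕ} (hp : 0 < p)
    (hp' : ∀ j, μ (replicate i a ++ y₀) ^ (p * (j + 1)) = μ (replicate i a ++ y₀) ^ p)
    (x y : List α) (r v v' : ℕ → List α) (hr : ∀ k ≤ C + 1, ∃ b ∈ r k, b ≠ a)
    (hv : ∀ k < C + 1, μ (v' k) = μ (v k) ∧
      (v' k).length ≡ (v k).length [MOD (replicate i a ++ y₀).length * p])
    (hw : x ++ r 0 ++ seg (fun k => v k ++ r (k + 1)) 0 (C + 1) ++ y ∈ L) :
    ∃ t < C + 1, x ++ r 0 ++ seg (fun k => v k ++ r (k + 1)) 0 t ++ (v' t ++ r (t + 1)) ++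
      seg (fun k => v k ++ r (k + 1)) (t + 1) (C + 1 - t - 1) ++ y ∈ L := by
  set z := replicate i a ++ y₀ with hzd
  have e1 : ∀ k, ∃ l' b e, k ≤ C + 1 → b ≠ a ∧ r k = l' ++ [b] ++ replicate e a := fun k => by
    by_cases hk : k ≤ C + 1
    · obtain ⟨l', b, e, j⟩ := last_ne (hr k hk)
      exact ⟨l', b, e, fun _ => j⟩
    · exact ⟨[], a, 0, fun j => absurd j hk⟩
  choose l β e e1 using e1
  have e2 : ∀ k, ∃ j j', k < C + 1 →
      (v' k).length + z.length * p * (j' + 1) = (v k).length + z.length * p * (j + 1) := fun k => by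
    by_cases hk : k < C + 1
    · obtain ⟨j, j', h⟩ := pad_len (hv k hk).2
      exact ⟨j', j, fun _ => h⟩
    · exact ⟨0, 0, fun j => absurd j hk⟩
  choose j j' e2 using e2
  obtain ⟨B, hB⟩ := ((Finset.range (C + 2)).image fun k => x.length + y.length + y₀.length +
    (r k).length + (v k ++ pw z (p * (j k + 1)) ++ r (k + 1)).length).exists_le
  simp only [Finset.forall_mem_image, Finset.mem_range, length_append] at hB
  replace hB := fun k hk => hB (x := k) hk
  set N := B + 1 with hN
  have hl : ∀ k ≤ C + 1, (l k).length + 1 + e k = (r k).length := fun k hk => by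
    rw [(e1 k hk).2]; simp; omega
  have e3 : ∀ k, ∃ s Y, k < C + 1 → s < N ∧
      pw y₀ (2 * N * (k + 1)) ++ (v k ++ pw z (p * (j k + 1)) ++ l (k + 1)) ++ [β (k + 1)] =
        replicate s a ++ Y ∧ Good a N Y := fun k => by
    by_cases hk : k < C + 1
    · obtain ⟨s, Y, h⟩ := good_tail (N := N) (T := pw y₀ (2 * N * (k + 1)) ++
        (v k ++ pw z (p * (j k + 1)) ++ l (k + 1))) (e1 (k + 1) hk).1 (by
          rw [append_assoc]
          refine noRun_pw hy _ _ [] (by simp) ?_
          have := hB k (by omega)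
          have := hl (k + 1) hk
          simp only [length_append, length_singleton]
          omega)
      exact ⟨s, Y, fun _ => h⟩
    · exact ⟨0, [], fun j => absurd j hk⟩
  choose s Y e3 using e3
  set D : ℕ → List α := fun k => replicate (i * (2 * N * (k + 1))) a ++ pw y₀ (2 * N * (k + 1)) ++
    v k ++ pw z (p * (j k + 1)) with hD
  set D' : ℕ → List α := fun k => replicate (i * (2 * N * (k + 1))) a ++ pw y₀ (2 * N * (k + 1)) ++
    v' k ++ pw z (p * (j' k + 1)) with hD'
  have sD : ∀ k, Syn L (D k ++ r (k + 1)) (v k ++ r (k + 1)) := fun k => by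
    simpa only [nil_append, append_nil] using
      (((syn_nest hz _).app (Syn.refl (v k))).app (syn_pw hz _)).app (Syn.refl _)
  have sD' : ∀ k, Syn L (D' k ++ r (k + 1)) (v' k ++ r (k + 1)) := fun k => by
    simpa only [nil_append, append_nil] using
      (((syn_nest hz _).app (Syn.refl (v' k))).app (syn_pw hz _)).app (Syn.refl _)
  have hE : ∀ k < C + 1, replicate (e k + i * (2 * N * (k + 1)) + s k) a ++ Y k =
      replicate (e k) a ++ (D k ++ l (k + 1) ++ [β (k + 1)]) := fun k hk => by
    rw [replicate_add, replicate_add, append_assoc, ← (e3 k hk).2.1]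
    simp only [hD, append_assoc]
  have tele : ∀ i' n, i' + n ≤ C + 1 → replicate (e i') a ++ seg (fun k => D k ++ r (k + 1)) i' n =
      seg (fun k => replicate (e k + i * (2 * N * (k + 1)) + s k) a ++ Y k) i' n ++
        replicate (e (i' + n)) a := fun i' n hn => by
    rw [seg_congr (w := fun k => (D k ++ l (k + 1) ++ [β (k + 1)]) ++ replicate (e (k + 1)) a)
      fun k hk => by rw [(e1 (k + 1) (by omega)).2]; simp only [append_assoc],
      seg_tele fun k => replicate (e k) a, seg_congr fun k hk => hE k (by omega)]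
  have he : ∀ k ≤ C + 1, e k < N := fun k hk => by
    have := hB k (by omega)
    have := hl k hk
    omega
  have lt : ∀ k k', k < k' → k' < C + 1 → e k + i * (2 * N * (k + 1)) + s k <
      e k' + i * (2 * N * (k' + 1)) + s k' := fun k k' h1 h2 => by
    have := he k (by omega)
    have := (e3 k (by omega)).1
    have : i * (2 * N * (k + 1)) + 2 * N ≤ i * (2 * N * (k' + 1)) := by
      obtain ⟨d, rfl⟩ := Nat.exists_eq_add_of_lt h1
      obtain ⟨i, rfl⟩ := Nat.exists_eq_add_of_lt hi
      nlinarith [Nat.zero_le (i * N), Nat.zero_le (i * N * d), Nat.zero_le (N * d)]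
    omega
  obtain ⟨t, ht, k⟩ := swap_marked (N := N) hμ h (x ++ l 0) (replicate (e (C + 1)) a ++ y) (β 0)
    (e1 0 (by omega)).1 (fun k => e k + i * (2 * N * (k + 1)) + s k) Y
    (fun k => replicate (e k) a ++ (D' k ++ l (k + 1) ++ [β (k + 1)]))
    (noRun_short (by
      have := hB 0 (by omega)
      have := hl 0 (by omega)
      rw [length_append]; omega))
    (noRun_short (by
      have := hB (C + 1) (by omega)
      have := hl (C + 1) (by omega)
      rw [length_append, length_replicate]; omega))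
    (fun k hk => (e3 k hk).2.2)
    (fun k _ => by
      have : N ≤ i * (2 * N * (k + 1)) := by
        obtain ⟨i, rfl⟩ := Nat.exists_eq_add_of_lt hi
        nlinarith [Nat.zero_le (i * N), Nat.zero_le (i * N * k), Nat.zero_le (N * k)]
      omega)
    (fun k hk k' hk' h => by
      rcases lt_trichotomy k k' with j | j | j
      · exact absurd h (lt k k' j hk').ne
      · exact j
      · exact absurd h (lt k' k j hk).ne')
    (fun k hk => by
      rw [hE k hk]
      constructor
      · have := e2 k hk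
        simp only [hD, hD', length_append, pw_len, ← Nat.mul_assoc]
        omega
      · obtain ⟨q, rfl⟩ := Nat.exists_eq_add_of_lt hp
        have m : ∀ n, μ (pw z ((0 + q + 1) * (n + 1))) = μ z ^ (0 + q + 1) := fun n => by
          rw [← hp' n, show (0 + q + 1) * (n + 1) = (0 + q + 1) * n + q + 1 by ring, mu_pw hμ]
        simp only [hD, hD', hμ _ _, m, (hv k hk).1])
    (by
      have := (((Syn.refl (x ++ r 0)).app (syn_seg sD 0 (C + 1))).app (Syn.refl y)).symm.mem hw
      rw [(e1 0 (by omega)).2, ← append_assoc, append_assoc _ (replicate _ _),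
        tele 0 (C + 1) (by omega)] at this
      simpa only [append_assoc, Nat.zero_add] using this)
  refine ⟨t, ht, (((((Syn.refl (x ++ r 0)).app (syn_seg sD 0 t)).app (sD' t)).app
    (syn_seg sD _ _)).app (Syn.refl y)).mem ?_⟩
  have t1 := tele 0 t (by omega)
  have t2 := tele (t + 1) (C + 1 - t - 1) (by omega)
  rw [show t + 1 + (C + 1 - t - 1) = C + 1 by omega] at t2
  rw [Nat.zero_add] at t1
  rw [(e1 0 (by omega)).2, (e1 (t + 1) ht).2, ← append_assoc x, append_assoc _ (replicate _ _), t1]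
  simp only [append_assoc] at k ⊢
  rw [← append_assoc (replicate (e (t + 1)) a), t2]
  simpa only [append_assoc] using k

/-- one of `c` replacements of consecutive factors by congruent words keeps membership in `L` -/
def MP {M : Type} (L : Language α) (μ : List α → M) (c : ℕ) : Prop :=
  ∀ w ∈ L, ∀ pre v suf v' : ℕ → List α,
    (∀ t < c, w = pre t ++ v t ++ suf t ∧ pre (t + 1) = pre t ++ v t ∧ μ (v' t) = μ (v t)) →
      ∃ t < c, pre t ++ v' t ++ suf t ∈ L

theorem syn_run {a : α} {i m n : ℕ} (hz : Syn L (replicate i a) []) (h : m ≡ n [MOD i]) :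
    Syn L (replicate m a) (replicate n a) := by
  obtain ⟨j, j', e⟩ := pad_len h
  have k : ∀ m j, Syn L (replicate (m + i * j) a) (replicate m a) := fun m j => by
    have := (Syn.refl (replicate m a)).app (syn_nest (y := []) (by simpa using hz) j)
    have e : pw ([] : List α) j = [] := length_eq_zero_iff.1 (by simp [pw_len])
    rwa [e, append_nil, append_nil, ← replicate_add] at this
  exact (k m _).symm.trans (e ▸ k n _)

theorem mp_of_expr {Λ : Set (Set (ℕ → ℕ))} (h : Expressible Λ L) {z : List α} (hz0 : z ≠ [])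
    (hz : Syn L z []) :
    ∃ (M : Type) (_ : Monoid M) (_ : Finite M) (μ : List α → M) (c : ℕ), Hom μ ∧ MP L μ c := by
  classical
  obtain ⟨M, _, _, μ, C, hμ, h⟩ := sw_of_expr h
  obtain ⟨a, z', rfl⟩ := exists_cons_of_ne_nil hz0
  obtain ⟨i, y₀, rfl, hy⟩ := first_ne (a := a) z'
  rw [← cons_append, ← replicate_succ] at hz hz0
  set z := replicate (i + 1) a ++ y₀ with hzd
  obtain ⟨p, hp, hp'⟩ := pow_idem (μ z)
  have : NeZero (z.length * p) := ⟨(Nat.mul_pos (length_pos_of_ne_nil hz0) hp).ne'⟩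
  refine ⟨M × Multiplicative (ZMod (z.length * p)) × ZMod 2, inferInstance, inferInstance,
    fun w => (μ w, Multiplicative.ofAdd (w.length : ZMod (z.length * p)),
      if ∀ b ∈ w, b = a then 1 else 0), 2 * (C + 1) + 1, fun u v => ?_, fun w hw pre v suf v' k => ?_⟩
  · refine Prod.ext (hμ u v) (Prod.ext (by simp) ?_)
    simp only [Prod.snd_mul, forall_mem_append]
    by_cases h1 : ∀ b ∈ u, b = a
    · by_cases h2 : ∀ b ∈ v, b = a
      · rw [if_pos ⟨h1, h2⟩, if_pos h1, if_pos h2, one_mul]
      · rw [if_neg fun j => h2 j.2, if_neg h2, mul_zero]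
    · rw [if_neg fun j => h1 j.1, if_neg h1, zero_mul]
  have k1 : ∀ t < 2 * (C + 1) + 1, μ (v' t) = μ (v t) ∧
      (v' t).length ≡ (v t).length [MOD z.length * p] := fun t ht =>
    ⟨congrArg Prod.fst (k t ht).2.2, (ZMod.natCast_eq_natCast_iff _ _ _).1
      (Multiplicative.ofAdd.injective (congrArg (fun x => x.2.1) (k t ht).2.2))⟩
  by_cases hc : ∃ t < 2 * (C + 1) + 1, ∀ b ∈ z ++ v t, b = a
  · obtain ⟨t, ht, j⟩ := hc
    rw [forall_mem_append] at j
    have j' : ∀ b ∈ v' t, b = a := by
      by_contra j'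
      have := congrArg (fun x => x.2.2) (k t ht).2.2
      simp only [if_pos j.2, if_neg j'] at this
      exact zero_ne_one this
    have := syn_run (a := a) (i := z.length) (eq_replicate_of_mem j.1 ▸ hz)
      ((k1 t ht).2.of_mul_right p)
    rw [← eq_replicate_of_mem j.2, ← eq_replicate_of_mem j'] at this
    exact ⟨t, ht, (this _ _).2 ((k t ht).1 ▸ hw)⟩
  push Not at hc
  have sG : ∀ k, Syn L (v (2 * k + 1) ++ (z ++ v (2 * (k + 1))))
      (v (2 * k + 1) ++ v (2 * (k + 1))) := fun k => (Syn.refl _).app (hz.app (Syn.refl _))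
  have A : ∀ t ≤ C + 1, pre (2 * t + 1) =
      pre 0 ++ v 0 ++ seg (fun k => v (2 * k + 1) ++ v (2 * (k + 1))) 0 t := fun t ht => by
    induction t with
    | zero => simpa [seg] using (k 0 (by omega)).2.1
    | succ t ih =>
      rw [(k _ (by omega)).2.1, show 2 * (t + 1) = 2 * t + 1 + 1 by ring, (k _ (by omega)).2.1,
        ih (by omega), seg_succ]
      simp only [append_assoc, Nat.zero_add, show 2 * (t + 1) = 2 * t + 1 + 1 by ring]
  have W : w = pre 0 ++ v 0 ++ seg (fun k => v (2 * k + 1) ++ v (2 * (k + 1))) 0 (C + 1) ++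
      suf (2 * (C + 1)) := by
    rw [← A _ le_rfl, (k _ (by omega)).2.1]
    exact (k _ (by omega)).1
  obtain ⟨t, ht, j⟩ := move_alt hμ h (Nat.succ_pos i) hy hz hp hp' (pre 0) (suf (2 * (C + 1)))
    (fun k => z ++ v (2 * k)) (fun k => v (2 * k + 1)) (fun k => v' (2 * k + 1))
    (fun k hk => hc _ (by omega)) (fun k hk => k1 _ (by omega))
    ((((Syn.refl _).app (hz.app (Syn.refl _))).app (syn_seg sG _ _)).app
      (Syn.refl _) |>.symm.mem (W ▸ hw))
  refine ⟨2 * t + 1, by omega, ?_⟩
  have j' := ((((((Syn.refl _).app (hz.app (Syn.refl _))).app (syn_seg sG _ _)).app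
    ((Syn.refl _).app (hz.app (Syn.refl _)))).app (syn_seg sG _ _)).app (Syn.refl _)).mem j
  have S := (k (2 * t + 1) (by omega)).1
  rw [W, A t ht.le, seg_split _ ht] at S
  simp only [append_assoc, append_cancel_left_eq] at S
  rw [A t ht.le, ← S]
  simpa only [append_assoc, nil_append] using j'

end Pool.Agent.Work.MP_cb6225_lc
end

-- merged part: Pool.Agent.Work.MP_cb6225_lc.Green
section
/-! The replacement property implies regularity: induction over the two-sided ideals of the finite
monoid. -/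

namespace Pool.Agent.Work.MP_cb6225_lc

open List

section Mon

variable {M : Type} [Monoid M] [Finite M]

/-- the size of the two-sided ideal generated by `m` -/
noncomputable def nu (m : M) : ℕ := {x | ∃ p q, x = p * m * q}.ncard

omit [Finite M] in
theorem nu_sub (p m q : M) : {x | ∃ a b, x = a * (p * m * q) * b} ⊆ {x | ∃ a b, x = a * m * b} := by
  rintro _ ⟨a, b, rfl⟩
  exact ⟨a * p, q * b, by simp only [mul_assoc]⟩

theorem nu_le (p m q : M) : nu (p * m * q) ≤ nu m := Set.ncard_le_ncard (nu_sub p m q)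

theorem nu_mem {p m q : M} (h : nu m ≤ nu (p * m * q)) : ∃ a b, m = a * m * b ∧
    (∃ a', a = a' * p) ∧ ∃ b', b = q * b' := by
  have : m ∈ {x | ∃ a b, x = a * (p * m * q) * b} := by
    rw [Set.eq_of_subset_of_ncard_le (nu_sub p m q) h]
    exact ⟨1, 1, by simp⟩
  obtain ⟨a, b, e⟩ := this
  exact ⟨a * p, q * b, by simpa only [mul_assoc] using e, ⟨a, rfl⟩, b, rfl⟩

omit [Finite M] in
theorem sandwich {a m b : M} (h : m = a * m * b) (n : ℕ) : m = a ^ n * m * b ^ n := by
  induction n with
  | zero => simp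
  | succ n ih =>
    rw [pow_succ, pow_succ' b]
    calc m = a ^ n * m * b ^ n := ih
      _ = a ^ n * (a * m * b) * b ^ n := by rw [← h]
      _ = _ := by simp only [mul_assoc]

theorem green {q m s m' : M} (h : nu m ≤ nu (q * m * s)) (e : q * m' * s = q * m * s)
    (h1 : ∃ g, m' = m * g) (h2 : ∃ g, m' = g * m) : m' = m := by
  obtain ⟨a, b, k, ⟨a', ha⟩, b', hb⟩ := nu_mem h
  obtain ⟨i, d, hd, hi⟩ := pow_cycle a
  obtain ⟨j, c, hc, hj⟩ := pow_cycle b
  obtain ⟨d, rfl⟩ := Nat.exists_eq_add_of_lt hd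
  obtain ⟨c, rfl⟩ := Nat.exists_eq_add_of_lt hc
  have k1 : a ^ (0 + d) * a' * q * m = m := by
    calc a ^ (0 + d) * a' * q * m = a ^ (0 + d + 1) * (a ^ i * m * b ^ i) := by
          rw [← sandwich k, pow_succ, mul_assoc _ a', ← ha]
      _ = a ^ (i + (0 + d + 1)) * m * b ^ i := by
          rw [Nat.add_comm i, pow_add _ _ i]; simp only [mul_assoc]
      _ = m := by rw [hi, ← sandwich k]
  have k2 : m * s * (b' * b ^ (0 + c)) = m := by
    calc m * s * (b' * b ^ (0 + c)) = (a ^ j * m * b ^ j) * b ^ (0 + c + 1) := by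
          rw [← sandwich k, pow_succ', mul_assoc, ← mul_assoc s, ← hb]
      _ = a ^ j * m * b ^ (j + (0 + c + 1)) := by rw [pow_add _ j]; simp only [mul_assoc]
      _ = m := by rw [hj, ← sandwich k]
  obtain ⟨g, h1⟩ := h1
  obtain ⟨g', h2⟩ := h2
  have k3 : a ^ (0 + d) * a' * q * m' = m' := by rw [h1, ← mul_assoc, k1]
  have k4 : m' * s * (b' * b ^ (0 + c)) = m' := by
    rw [h2, mul_assoc g', mul_assoc g', k2]
  calc m' = a ^ (0 + d) * a' * (q * m' * s) * (b' * b ^ (0 + c)) := by
        rw [← mul_assoc _ (q * m'), ← mul_assoc _ q, k3, k4]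
    _ = m := by rw [e, ← mul_assoc _ (q * m), ← mul_assoc _ q, k1, k2]

end Mon

theorem cycle {β τ : Type} {T : Set τ} (hT : T.Finite) (st : List β → τ) (V : List β)
    (hV : T.ncard ≤ V.length) (h : ∀ P, P <+: V → st P ∈ T) :
    ∃ A H B, V = A ++ H ++ B ∧ H ≠ [] ∧ st (A ++ H) = st A := by
  have key : ∀ i j, i < j → j ≤ V.length → st (V.take i) = st (V.take j) →
      ∃ A H B, V = A ++ H ++ B ∧ H ≠ [] ∧ st (A ++ H) = st A := fun i j h1 h2 h3 => by
    obtain ⟨H, hH⟩ := take_prefix_take_left (l := V) h1.le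
    refine ⟨V.take i, H, V.drop j, by rw [hH, take_append_drop], ?_, by rw [hH, h3]⟩
    rintro rfl
    have := congrArg length hH
    simp at this
    omega
  obtain ⟨i, hi, j, hj, k1, k2⟩ := Finset.exists_ne_map_eq_of_card_lt_of_maps_to
    (s := Finset.range (V.length + 1)) (t := hT.toFinset) (f := fun i => st (V.take i))
    (by rw [Finset.card_range, ← Set.ncard_eq_toFinset_card _ hT]; omega)
    fun i _ => by simpa using h _ (take_prefix _ _)
  rw [Finset.mem_range] at hi hj
  rcases lt_or_gt_of_ne k1 with k | k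
  · exact key i j k (by omega) k2
  · exact key j i k (by omega) k2.symm

theorem reps {β τ : Type} (W : Set β) (Φ : β → τ) (h : (Φ '' W).Finite) (len : β → ℕ) :
    ∃ l, ∀ w ∈ W, ∃ w' ∈ W, len w' ≤ l ∧ Φ w' = Φ w := by
  obtain ⟨t, h1, h2, h3⟩ := (Set.exists_subset_image_finite_and (p := fun t => t = Φ '' W)).1
    ⟨_, le_rfl, h, rfl⟩
  obtain ⟨l, hl⟩ := (h2.image len).bddAbove
  refine ⟨l, fun w hw => ?_⟩
  obtain ⟨w', a, b⟩ : Φ w ∈ Φ '' t := h3 ▸ ⟨w, hw, rfl⟩
  exact ⟨w', h1 a, hl ⟨w', a, rfl⟩, b⟩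

variable {α : Type} {L : Language α} {M : Type} [Monoid M] [Finite M] {μ : List α → M} {c k : ℕ}

/-- the syntactic preorder -/
def Le (L : Language α) (u v : List α) : Prop := ∀ x y, x ++ u ++ y ∈ L → x ++ v ++ y ∈ L

theorem nu_infix (hμ : Hom μ) {u w : List α} (h : u <:+: w) :
    nu (μ w) ≤ nu (μ u) := by
  obtain ⟨p, q, rfl⟩ := h
  rw [hμ, hμ]
  exact nu_le _ _ _

theorem insert_cycle (hμ : Hom μ) (h : MP L μ c) (P F H P' R : List (List α))
    (hF : F.length = c) (hk : ∀ f ∈ F, nu (μ f) ≤ k) (hP : k ≤ nu (μ (P ++ F).flatten))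
    (e : P ++ F ++ H = P' ++ F) (e' : μ (P ++ F ++ H).flatten = μ (P ++ F).flatten) :
    Le L (P ++ F ++ R).flatten (P ++ F ++ H ++ R).flatten := fun x y hw => by
  have k1 : ∀ t, ∃ G : List (List α), F.drop t ++ H = G ++ F.drop t := fun t => by
    have a1 : F.drop t <:+ P ++ F ++ H := e ▸ (drop_suffix _ _).trans (suffix_append _ _)
    have a2 : F.drop t ++ H <:+ P ++ F ++ H :=
      ⟨P ++ F.take t, by rw [← append_assoc, append_assoc P, take_append_drop]⟩
    obtain ⟨G, hG⟩ := suffix_of_suffix_length_le a1 a2 (by simp)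
    exact ⟨G, hG.symm⟩
  choose G hG using k1
  obtain ⟨t, ht, j⟩ := h _ hw (fun t => x ++ (P ++ F.take t).flatten)
    (fun t => F[t]?.toList.flatten) (fun t => (F.drop (t + 1) ++ R).flatten ++ y)
    (fun t => (G t ++ F[t]?.toList).flatten) fun t ht => by
      have ht' : t < F.length := hF ▸ ht
      have d := drop_eq_getElem_cons ht'
      have hf : F = F.take t ++ F[t] :: F.drop (t + 1) := by rw [← d, take_append_drop]
      have hf' : F.flatten = (F.take t).flatten ++ (F[t] ++ (F.drop (t + 1)).flatten) :=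
        (congrArg flatten hf).trans (by rw [flatten_append, flatten_cons])
      refine ⟨?_, by simp only [take_add_one, flatten_append, append_assoc], ?_⟩
      · simp only [getElem?_eq_getElem ht', Option.toList_some, flatten_append, flatten_cons,
          flatten_nil, append_nil, append_assoc, hf']
      have g := hG t
      rw [d] at g
      simp only [getElem?_eq_getElem ht', Option.toList_some, flatten_append, flatten_cons,
        flatten_nil, append_nil]
      have q1 : μ (P ++ F).flatten =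
          μ (P ++ F.take t).flatten * μ F[t] * μ (F.drop (t + 1)).flatten := by
        rw [← hμ, ← hμ]
        simp only [flatten_append, append_assoc, hf']
      refine green (q := μ (P ++ F.take t).flatten) (s := μ (F.drop (t + 1)).flatten)
        (q1 ▸ (hk _ (getElem_mem _)).trans hP) ?_ ?_ ⟨_, hμ _ _⟩
      · rw [← q1, ← e', ← hμ, ← hμ]
        have g' := congrArg flatten g
        simp only [flatten_append, flatten_cons, append_assoc] at g'
        simp only [flatten_append, append_assoc, hf', g']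
      · rcases hg : G t with _ | ⟨f, G'⟩
        · exact ⟨1, by simp⟩
        · rw [hg, cons_append, cons_append, cons.injEq] at g
          exact ⟨_, by rw [flatten_cons, ← g.1, append_assoc, hμ]⟩
  have ht' : t < F.length := hF ▸ ht
  have g := hG t
  have d := drop_eq_getElem_cons ht'
  have : P ++ F ++ H ++ R = P ++ F.take t ++ (G t ++ [F[t]]) ++ (F.drop (t + 1) ++ R) := by
    conv_lhs => rw [← take_append_drop t F, append_assoc P, append_assoc (F.take t), g, d]
    simp only [append_assoc, cons_append, nil_append]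
  rw [this]
  simpa only [getElem?_eq_getElem ht', Option.toList_some, flatten_append, append_assoc] using j

theorem shorten (hμ : Hom μ) (h : MP L μ c) {A : Set (List α)} (hA : A.Finite)
    (hk : ∀ f ∈ A, nu (μ f) ≤ k) :
    ∃ K, ∀ U : List (List α), (∀ f ∈ U, f ∈ A) → k ≤ nu (μ U.flatten) → K < U.length →
      ∀ x y, x ++ U.flatten ++ y ∈ L → ∃ U₀ : List (List α), (∀ f ∈ U₀, f ∈ A) ∧
        k ≤ nu (μ U₀.flatten) ∧ U₀.length < U.length ∧ Le L U₀.flatten U.flatten ∧
        x ++ U₀.flatten ++ y ∈ L := by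
  have hS : {F : List (List α) | F.length ≤ c ∧ ∀ f ∈ F, f ∈ A}.Finite := by
    have := hA.to_subtype
    refine ((finite_length_le A c).image (map Subtype.val)).subset ?_
    rintro F ⟨a, b⟩
    lift F to List A using b
    exact ⟨F, by simpa using a, rfl⟩
  have hT := (Set.finite_univ (α := M × M)).prod hS
  set n := (Set.univ ×ˢ {F : List (List α) | F.length ≤ c ∧ ∀ f ∈ F, f ∈ A} :
    Set ((M × M) × List (List α))).ncard with hn
  refine ⟨c + c * n, fun U hU hU' hl x y hw => ?_⟩
  have k1 : ∀ t, ∃ B H B' : List (List α), t < c → (U.drop (c + t * n)).take n = B ++ H ++ B' ∧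
      H ≠ [] ∧ μ (B ++ H).flatten = μ B.flatten ∧
      μ (U.take (c + t * n) ++ (B ++ H)).flatten = μ (U.take (c + t * n) ++ B).flatten ∧
      (U.take (c + t * n) ++ (B ++ H)).rtake c = (U.take (c + t * n) ++ B).rtake c := fun t => by
    by_cases ht : t < c
    · obtain ⟨B, H, B', a1, a2, a3⟩ := cycle hT (fun B => ((μ B.flatten,
        μ (U.take (c + t * n) ++ B).flatten), (U.take (c + t * n) ++ B).rtake c))
        ((U.drop (c + t * n)).take n)
        (by
          have : t * n + n ≤ c * n := by nlinarith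
          rw [length_take, length_drop]; omega)
        fun P hP => ⟨trivial, by simp [rtake]; omega, fun f hf => by
          rcases mem_append.1 (mem_of_mem_drop hf) with j | j
          · exact hU f (mem_of_mem_take j)
          · exact hU f (mem_of_mem_drop (mem_of_mem_take (hP.subset j)))⟩
      simp only [Prod.mk.injEq] at a3
      exact ⟨B, H, B', fun _ => ⟨a1, a2, a3.1.1, a3.1.2, a3.2⟩⟩
    · exact ⟨[], [], [], fun j => absurd j ht⟩
  choose B H B' k1 using k1
  have dec : ∀ t, U = U.take (c + t * n) ++ (U.drop (c + t * n)).take n ++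
      U.drop (c + (t + 1) * n) := fun t => by
    rw [Nat.succ_mul, ← Nat.add_assoc, ← drop_drop (i := n), append_assoc, take_append_drop,
      take_append_drop]
  obtain ⟨t, ht, j⟩ := h _ hw (fun t => x ++ (U.take (c + t * n)).flatten)
    (fun t => ((U.drop (c + t * n)).take n).flatten)
    (fun t => (U.drop (c + (t + 1) * n)).flatten ++ y)
    (fun t => (B t ++ B' t).flatten) fun t ht => by
      refine ⟨?_, ?_, ?_⟩
      · conv_lhs => rw [dec t]
        simp only [flatten_append, append_assoc]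
      · simp only [Nat.succ_mul, ← Nat.add_assoc, take_add, flatten_append, append_assoc]
      · rw [(k1 t ht).1, flatten_append, flatten_append (L₁ := B t ++ H t), hμ, hμ,
          (k1 t ht).2.2.1]
  obtain ⟨a1, a2, -, a4, a5⟩ := k1 t ht
  have e := dec t
  rw [a1] at e
  set Q := U.take (c + t * n) with hQ
  set R := U.drop (c + (t + 1) * n)
  have hQl : c ≤ Q.length := by rw [hQ, length_take]; omega
  have e' : U = Q ++ B t ++ H t ++ (B' t ++ R) := by rw [e]; simp only [append_assoc]
  have hm : μ (Q ++ B t ++ (B' t ++ R)).flatten = μ U.flatten := by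
    rw [e', flatten_append, flatten_append (L₁ := Q ++ B t ++ H t), hμ, hμ, append_assoc Q, a4]
  have sub : ∀ f ∈ Q ++ B t ++ (B' t ++ R), f ∈ A := fun f hf => hU f (by
    rw [e']; simp only [mem_append] at hf ⊢; tauto)
  refine ⟨Q ++ B t ++ (B' t ++ R), sub, hm ▸ hU', ?_, ?_,
    by simpa only [flatten_append, append_assoc] using j⟩
  · have := length_pos_of_ne_nil a2
    rw [e']
    simp only [length_append]
    omega
  · have s1 : (Q ++ B t).rdrop c ++ (Q ++ B t).rtake c = Q ++ B t := take_append_drop _ _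
    have s2 : (Q ++ (B t ++ H t)).rdrop c ++ (Q ++ (B t ++ H t)).rtake c = Q ++ (B t ++ H t) :=
      take_append_drop _ _
    have := insert_cycle (k := k) hμ h ((Q ++ B t).rdrop c) ((Q ++ B t).rtake c) (H t)
      ((Q ++ (B t ++ H t)).rdrop c) (B' t ++ R) (by simp [rtake]; omega)
      (fun f hf => hk f (sub f (mem_append_left _ (mem_of_mem_drop hf))))
      (by
        rw [s1]
        refine hU'.trans (nu_infix hμ ⟨[], (H t ++ (B' t ++ R)).flatten, ?_⟩)
        rw [e']; simp)
      (by rw [s1, ← a5, s2, append_assoc]) (by rw [s1, append_assoc, a4])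
    rwa [s1, ← e'] at this

theorem level [Finite α] (hμ : Hom μ) (h : MP L μ c) {l : ℕ}
    (hl : ∀ w, k + 1 ≤ nu (μ w) → ∃ w', w'.length ≤ l ∧ Syn L w w' ∧ μ w = μ w') :
    ∃ l, ∀ w, k ≤ nu (μ w) → ∃ w', w'.length ≤ l ∧ Syn L w w' ∧ μ w = μ w' := by
  set A : Set (List α) := {f | f.length ≤ l + 1 ∧ nu (μ f) ≤ k}
  have hA : A.Finite := (finite_length_le α (l + 1)).subset fun _ h => h.1
  obtain ⟨K, hK⟩ := shorten hμ h hA fun f hf => hf.2
  have fac : ∀ w, ∃ (U : List (List α)) (r : List α), (∀ f ∈ U, f ∈ A) ∧ r.length ≤ l ∧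
      Syn L w (U.flatten ++ r) ∧ μ w = μ (U.flatten ++ r) := fun w => by
    induction w using reverseRecOn with
    | nil => exact ⟨[], [], by simp, by simp, Syn.refl _, rfl⟩
    | append_singleton w x ih =>
      obtain ⟨U, r, a1, a2, a3, a4⟩ := ih
      have b3 := a3.app (Syn.refl [x])
      have b4 : μ (w ++ [x]) = μ (U.flatten ++ r ++ [x]) := by rw [hμ, a4, ← hμ]
      by_cases j : nu (μ (r ++ [x])) ≤ k
      · refine ⟨U ++ [r ++ [x]], [], fun f hf => ?_, by simp, by simpa using b3, by simpa using b4⟩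
        rcases mem_append.1 hf with hf | hf
        · exact a1 f hf
        · rw [mem_singleton.1 hf]; exact ⟨by simpa using a2, j⟩
      · obtain ⟨r', c1, c2, c3⟩ := hl _ (not_le.1 j)
        rw [append_assoc] at b3 b4
        exact ⟨U, r', a1, c1, b3.trans ((Syn.refl _).app c2), by rw [b4, hμ, c3, hμ]⟩
  have short : ∀ U : List (List α), (∀ f ∈ U, f ∈ A) → k ≤ nu (μ U.flatten) →
      ∀ x y, x ++ U.flatten ++ y ∈ L → ∃ u : List α, u.length ≤ K * (l + 1) ∧
        Le L u U.flatten ∧ x ++ u ++ y ∈ L := fun U a1 a2 x y a3 => by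
    induction hn : U.length using Nat.strong_induction_on generalizing U with
    | _ n ih =>
      by_cases j : K < U.length
      · obtain ⟨V, b1, b2, b3, b4, b5⟩ := hK U a1 a2 j x y a3
        obtain ⟨u, c1, c2, c3⟩ := ih _ (hn ▸ b3) V b1 b2 b5 rfl
        exact ⟨u, c1, fun x y i => b4 x y (c2 x y i), c3⟩
      · refine ⟨U.flatten, ?_, fun _ _ i => i, a3⟩
        rw [length_flatten]
        refine (sum_le_card_nsmul _ (l + 1) fun m hm => ?_).trans ?_
        · obtain ⟨f, hf, rfl⟩ := mem_map.1 hm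
          exact (a1 f hf).1
        · rw [length_map, smul_eq_mul]
          exact Nat.mul_le_mul_right _ (not_lt.1 j)
  obtain ⟨l', hl'⟩ := reps {U : List (List α) | (∀ f ∈ U, f ∈ A) ∧ k ≤ nu (μ U.flatten)}
    (fun U => ({u : List α | u.length ≤ K * (l + 1) ∧ Le L u U.flatten}, μ U.flatten))
    (((finite_length_le α (K * (l + 1))).finite_subsets.prod Set.finite_univ).subset (by
      rintro _ ⟨U, -, rfl⟩
      exact ⟨fun u hu => hu.1, trivial⟩)) fun U => U.flatten.length
  refine ⟨l' + l, fun w hw => ?_⟩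
  obtain ⟨U, r, a1, a2, a3, a4⟩ := fac w
  have a5 : k ≤ nu (μ U.flatten) :=
    hw.trans (a4 ▸ nu_infix hμ (prefix_append _ _).isInfix)
  obtain ⟨V, ⟨b1, b2⟩, b3, b4⟩ := hl' U ⟨a1, a5⟩
  rw [Prod.mk.injEq, Set.ext_iff] at b4
  refine ⟨V.flatten ++ r, by rw [length_append]; omega, a3.trans (Syn.app ?_ (Syn.refl _)),
    by rw [a4, hμ, hμ, b4.2]⟩
  refine fun x y => ⟨fun i => ?_, fun i => ?_⟩
  · obtain ⟨u, c1, c2, c3⟩ := short U a1 a5 x y i
    exact ((b4.1 u).2 ⟨c1, c2⟩).2 x y c3
  · obtain ⟨u, c1, c2, c3⟩ := short V b1 b2 x y i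
    exact ((b4.1 u).1 ⟨c1, c2⟩).2 x y c3

theorem regular_of_mp [Finite α] (hμ : Hom μ) (h : MP L μ c) : L.IsRegular := by
  have key : ∀ d k, Nat.card M < k + d →
      ∃ l, ∀ w, k ≤ nu (μ w) → ∃ w', w'.length ≤ l ∧ Syn L w w' ∧ μ w = μ w' := fun d => by
    induction d with
    | zero =>
      refine fun k hk => ⟨0, fun w hw => ?_⟩
      have : nu (μ w) ≤ Nat.card M := Set.ncard_le_card _
      omega
    | succ d ih =>
      intro k hk
      obtain ⟨l, hl⟩ := ih (k + 1) (by omega)
      exact level hμ h hl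
  obtain ⟨l, hl⟩ := key (Nat.card M + 1) 0 (by omega)
  refine Language.IsRegular.of_finite_range_leftQuotient
    (((finite_length_le α l).image L.leftQuotient).subset ?_)
  rintro _ ⟨w, rfl⟩
  obtain ⟨w', a1, a2, -⟩ := hl w (Nat.zero_le _)
  exact ⟨w', a1, Set.ext fun y => (a2 [] y).symm⟩

end Pool.Agent.Work.MP_cb6225_lc
end
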